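import Pool.Agent.H63.TV.Close5

/-!
# Tight handles on a tight modification of the projected Veronese embedding (MP_ae59c8_gt)
-/

open scoped ContDiff ComplexConjugate

namespace Pool.Agent.Results.MP_ae59c8_gt.TightHandles

open Pool.Agent.H63.TV

noncomputable section

/-- the Veronese-type embedding, with values in `ℝ^3 ⊕ ℂ^3` -/
def veronese (z : C3) : (Fin 3 → ℝ) × (Fin 3 → ℂ) :=
  (![‖z 0‖ ^ 2, ‖z 1‖ ^ 2, ‖z 2‖ ^ 2],
    ![((Real.sqrt 2 : ℝ) : ℂ) * (z 0 * conj (z 1)), ((Real.sqrt 2 : ℝ) : ℂ) * (z 1 * conj (z 2)),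
      ((Real.sqrt 2 : ℝ) : ℂ) * (z 2 * conj (z 0))])

/-- the centre of the stereographic projection -/
def centre : (Fin 3 → ℝ) × (Fin 3 → ℂ) := (![-1 / 3, 2 / 3, 2 / 3], 0)

/-- the affine isometric parametrisation of the `7`-plane through the centre `(1/3, 1/3, 1/3, 0, 0, 0)`
of the `7`-sphere, orthogonal to the axis of the projection -/
def plane (y : E7) : (Fin 3 → ℝ) × (Fin 3 → ℂ) :=
  (![1 / 3, 1 / 3 + y.1 / Real.sqrt 2, 1 / 3 - y.1 / Real.sqrt 2], ![y.2.1, y.2.2.1, y.2.2.2])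

/-- `ver` is the stereographic projection of the Veronese-type embedding -/
theorem plane_ver (z : C3) (hz : ‖z 0‖ ^ 2 + ‖z 1‖ ^ 2 + ‖z 2‖ ^ 2 = 1) :
    ∃ t : ℝ, plane (ver z) = centre + t • (veronese z - centre) := by
  set d : ℝ := 4 * ‖z 0‖ ^ 2 + ‖z 1‖ ^ 2 + ‖z 2‖ ^ 2 with hd
  have hd0 : d = 3 * ‖z 0‖ ^ 2 + 1 := by rw [hd, ← hz]; ring
  have hdp : 0 < d := by rw [hd0]; positivity
  have h2 : Real.sqrt 2 * Real.sqrt 2 = 2 := Real.mul_self_sqrt (by norm_num)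
  have h2' : Real.sqrt 2 ≠ 0 := by positivity
  have hc : ∀ x : ℂ, ((2 * Real.sqrt 2 / d : ℝ) : ℂ) * x =
      (0 : ℂ) + (2 / d : ℝ) • (((Real.sqrt 2 : ℝ) : ℂ) * x - 0) := by
    intro x
    rw [sub_zero, zero_add, Complex.real_smul, ← mul_assoc, ← Complex.ofReal_mul]
    congr 2
    ring
  refine ⟨2 / d, ?_⟩
  apply Prod.ext
  · funext i
    fin_cases i
    · show (1 / 3 : ℝ) = -1 / 3 + 2 / d * (‖z 0‖ ^ 2 - -1 / 3)
      rw [hd0]
      field_simp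
      ring
    · show 1 / 3 + Real.sqrt 2 * (‖z 1‖ ^ 2 - ‖z 2‖ ^ 2) / d / Real.sqrt 2 =
        2 / 3 + 2 / d * (‖z 1‖ ^ 2 - 2 / 3)
      have e1 : Real.sqrt 2 * (‖z 1‖ ^ 2 - ‖z 2‖ ^ 2) / d / Real.sqrt 2 =
          (‖z 1‖ ^ 2 - ‖z 2‖ ^ 2) / d := by
        field_simp
      rw [e1, ← sub_eq_zero]
      have e2 : 1 / 3 + (‖z 1‖ ^ 2 - ‖z 2‖ ^ 2) / d - (2 / 3 + 2 / d * (‖z 1‖ ^ 2 - 2 / 3)) =
        ((‖z 1‖ ^ 2 - ‖z 2‖ ^ 2) - d / 3 - 2 * (‖z 1‖ ^ 2 - 2 / 3)) / d := by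
        field_simp
        ring
      rw [e2, div_eq_zero_iff]
      left
      rw [hd]
      linarith
    · show 1 / 3 - Real.sqrt 2 * (‖z 1‖ ^ 2 - ‖z 2‖ ^ 2) / d / Real.sqrt 2 =
        2 / 3 + 2 / d * (‖z 2‖ ^ 2 - 2 / 3)
      have e1 : Real.sqrt 2 * (‖z 1‖ ^ 2 - ‖z 2‖ ^ 2) / d / Real.sqrt 2 =
          (‖z 1‖ ^ 2 - ‖z 2‖ ^ 2) / d := by
        field_simp
      rw [e1, ← sub_eq_zero]
      have e2 : 1 / 3 - (‖z 1‖ ^ 2 - ‖z 2‖ ^ 2) / d - (2 / 3 + 2 / d * (‖z 2‖ ^ 2 - 2 / 3)) =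
        (-(‖z 1‖ ^ 2 - ‖z 2‖ ^ 2) - d / 3 - 2 * (‖z 2‖ ^ 2 - 2 / 3)) / d := by
        field_simp
        ring
      rw [e2, div_eq_zero_iff]
      left
      rw [hd]
      linarith
  · funext i
    fin_cases i
    · exact hc _
    · exact hc _
    · exact hc _

/-- smallness of the tubes -/
theorem tube_near {k : ℕ} {r s ε : ℝ} {c : Fin k → ℂ} {r1 r2 r3 : ℝ} (hP : Par k r s c r1 r2 r3)
    (hr3 : 0 < r3) (h2 : r2 < ε) (h3 : r3 < ε) (i : Fin k) {a : ℂ} {x : R3} (ha : ‖a‖ = 1)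
    (hx : len x ≤ 2) : dist (tube r s (c i) a x) ![1, 0, 0] < ε := by
  have hs := hP.hs
  have hs' := hP.hs'
  have hr := hP.hr
  have hε : 0 < ε := hr3.trans h3
  have hlen : |x.1| ≤ 2 ∧ ‖x.2‖ ≤ 2 := by
    unfold len at hx
    have h0 : x.1 ^ 2 + ‖x.2‖ ^ 2 ≤ 4 := by
      have := (Real.sqrt_le_left (by norm_num)).1 hx
      linarith
    constructor
    · apply abs_le_of_sq_le_sq _ (by norm_num)
      nlinarith [sq_nonneg ‖x.2‖]
    · apply le_of_sq_le_sq _ (by norm_num)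
      nlinarith [sq_nonneg x.1]
  have hlo : ‖c i‖ + 2 * s < r3 := by
    have h := hP.h3 i
    rw [div_lt_iff₀ (by linarith)] at h
    nlinarith
  have hc0 := norm_nonneg (c i)
  have hhi : r < r2 := by
    have h := hP.hi
    rw [div_lt_iff₀ (by linarith)] at h
    have : 0 < r2 := by
      by_contra hcon
      have h5 := not_lt.1 hcon
      nlinarith
    nlinarith
  rw [dist_pi_lt_iff hε]
  intro j
  fin_cases j
  · show dist (((1 + s * x.1 : ℝ) : ℂ)) 1 < ε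
    rw [dist_eq_norm]
    have e : (((1 + s * x.1 : ℝ) : ℂ)) - 1 = ((s * x.1 : ℝ) : ℂ) := by
      push_cast
      ring
    rw [e, Complex.norm_real, Real.norm_eq_abs, abs_mul, abs_of_pos hs]
    nlinarith [hlen.1]
  · show dist ((r : ℂ) * a) 0 < ε
    rw [dist_zero_right, norm_mul, ha, Complex.norm_real, Real.norm_eq_abs, abs_of_pos hr]
    linarith
  · show dist (c i + (s : ℂ) * x.2) 0 < ε
    rw [dist_zero_right]
    have h5 : ‖(s : ℂ) * x.2‖ ≤ 2 * s := by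
      rw [norm_mul, Complex.norm_real, Real.norm_eq_abs, abs_of_pos hs]
      nlinarith [hlen.2]
    have := norm_add_le (c i) ((s : ℂ) * x.2)
    linarith

/-- For every neighbourhood `N` of the point `[1 : 0 : 0]` of `CP^2`, every `η > 0` and every `k` there are
`k` disjoint solid tori in `N` and a tight smooth embedding `g` of `CP^2` in `E^7` which equals the projected
Veronese embedding outside `N` and is `η`-close to it in the `C^1` sense (in the affine chart), such that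
`k` handles `S^2 x S^2`, contained in the ball of radius `η` around the image of `[1 : 0 : 0]`, can be
attached tightly to `g` along the solid tori. -/
theorem result (k : ℕ) (N : Set C3) (hN : N ∈ nhds (![1, 0, 0] : C3)) (η : ℝ) (hη : 0 < η) :
    (∀ z : C3, ‖z 0‖ ^ 2 + ‖z 1‖ ^ 2 + ‖z 2‖ ^ 2 = 1 →
      ∃ t : ℝ, plane (ver z) = centre + t • (veronese z - centre)) ∧
    ∃ (r s : ℝ) (c : Fin k → ℂ) (g : C3 → E7) (G : Fin k → ℂ × R3 → E7),
      0 < r ∧ 0 < s ∧ 2 * s < 1 ∧ (∀ i j, i ≠ j → 4 * s < ‖c i - c j‖) ∧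
      (∀ (i : Fin k) (a : ℂ) (x : R3), ‖a‖ = 1 → len x ≤ 2 → tube r s (c i) a x ∈ N) ∧
      (∀ z : C3, z ≠ 0 → (∀ μ : ℂ, μ ≠ 0 → μ • z ∉ N) → g z = ver z) ∧
      (∀ ζ : ℂ × ℂ, ‖g ![1, ζ.1, ζ.2] - ver ![1, ζ.1, ζ.2]‖ ≤ η ∧
        ‖fderiv ℝ (fun ζ : ℂ × ℂ => g ![1, ζ.1, ζ.2] - ver ![1, ζ.1, ζ.2]) ζ‖ ≤ η) ∧
      (∀ (i : Fin k) (p : ℂ × R3), ‖p.1‖ < 2 → p.2 ≠ 0 → ‖G i p - ver ![1, 0, 0]‖ ≤ η) ∧
      SmoothEmb 0 r s ![] g (fun _ _ => 0) ∧ Tight 0 r s ![] g (fun _ _ => 0) ∧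
      SmoothEmb k r s c g G ∧ Tight k r s c g G := by
  refine ⟨plane_ver, ?_⟩
  obtain ⟨δ, hδ, hball⟩ := Metric.mem_nhds_iff.1 hN
  set η' : ℝ := min 1 (η / 400) with hη'
  have hη'p : 0 < η' := lt_min one_pos (by positivity)
  have hη'1 : η' ≤ 1 := min_le_left _ _
  have hη'2 : 400 * η' ≤ η := by
    have := min_le_right 1 (η / 400)
    rw [← hη'] at this
    linarith
  obtain ⟨ε₀, hε₀, hex⟩ := good_close η' hη'p
  set ε : ℝ := min (min ε₀ δ) η' with hε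
  have hεp : 0 < ε := lt_min (lt_min hε₀ hδ) hη'p
  have hεη : ε ≤ η' := min_le_right _ _
  obtain ⟨q, w, D, α, β, r1, r2, r3, D0, hG, hC⟩ :=
    hex ε hεp ((min_le_left _ _).trans (min_le_left _ _))
  obtain ⟨r, s, c, hP⟩ := par_exists hG.hr1 hG.hr12 hG.hr3 k
  obtain ⟨m, n, p, n', hNk⟩ := neck_profile r s hP.hr hP.hs
  have hP0 : Par 0 r s (![] : Fin 0 → ℂ) r1 r2 r3 :=
    ⟨hP.hr, hP.hs, hP.hs', hP.lo, hP.hi, fun i => i.elim0, fun i => i.elim0⟩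
  have hr2 : r2 < ε := by
    have h1 := hG.inside
    have h2 := hG.hr3
    have h3 : r2 ^ 2 < ε ^ 2 := by nlinarith
    exact lt_of_pow_lt_pow_left₀ 2 hεp.le h3
  have hr3 : r3 < ε := by
    have h1 := hG.inside
    have h3 : r3 ^ 2 < ε ^ 2 := by nlinarith [sq_nonneg r2]
    exact lt_of_pow_lt_pow_left₀ 2 hεp.le h3
  have hε1 : ε ≤ 1 / 4 := hG.eps.2
  have hεδ : ε ≤ δ := (min_le_left _ _).trans (min_le_right _ _)
  have e0 : (fun (i : Fin 0) (y : ℂ × R3) => psi α β r D0 (nk m n ((![] : Fin 0 → ℂ) i) y)) =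
      fun _ _ => 0 := by
    funext i
    exact i.elim0
  have hS0 := smoothEmb hG hP0 hNk
  have hT0 := tight_main hG hP0 hNk
  rw [e0] at hS0 hT0
  refine ⟨r, s, c, gfun q w D, fun i y => psi α β r D0 (nk m n (c i) y), hP.hr, hP.hs, hP.hs',
    hP.sep, ?_, ?_, ?_, ?_, hS0, hT0, smoothEmb hG hP hNk, tight_main hG hP hNk⟩
  · intro i a x ha hx
    apply hball
    rw [Metric.mem_ball]
    exact lt_of_lt_of_le (tube_near hP hG.hr3 hr2 hr3 i ha hx) hεδ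
  · intro z hz hzN
    apply gfun_eq_ver hG
    by_contra hcon
    rw [not_or, not_le] at hcon
    obtain ⟨h0, h1⟩ := hcon
    apply hzN (z 0)⁻¹ (inv_ne_zero h0)
    have e1 : (z 0)⁻¹ • z = lift (pr z) := by
      calc (z 0)⁻¹ • z = (z 0)⁻¹ • (z 0 • lift (pr z)) := by rw [lift_pr h0]
        _ = lift (pr z) := by rw [smul_smul, inv_mul_cancel₀ h0, one_smul]
    rw [e1]
    apply hball
    rw [Metric.mem_ball]
    apply lt_of_lt_of_le _ hεδ
    rw [dist_pi_lt_iff hεp]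
    have n1 := norm_nonneg (pr z).1
    have n2 := norm_nonneg (pr z).2
    intro j
    fin_cases j
    · show dist (1 : ℂ) 1 < ε
      rw [dist_self]
      exact hεp
    · show dist (pr z).1 0 < ε
      rw [dist_zero_right]
      have h3 : ‖(pr z).1‖ ^ 2 < ε ^ 2 := by nlinarith
      exact lt_of_pow_lt_pow_left₀ 2 hεp.le h3
    · show dist (pr z).2 0 < ε
      rw [dist_zero_right]
      have h3 : ‖(pr z).2‖ ^ 2 < ε ^ 2 := by nlinarith
      exact lt_of_pow_lt_pow_left₀ 2 hεp.le h3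
  · intro ζ
    obtain ⟨h1, h2⟩ := theta_close hG hη'p hη'1 hC ζ
    exact ⟨h1.trans (by linarith), h2.trans (by linarith)⟩
  · intro i y hy hy'
    have h1 := handle_small hG hP hNk hη'p hC i hy hy'
    have h2 : ver ![1, 0, 0] = 0 := by
      simp [ver]
    rw [h2, sub_zero]
    exact h1.trans (by linarith)

end

end Pool.Agent.Results.MP_ae59c8_gt.TightHandles
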